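import Pool.Agent.Lib.P2cbf68.Space

/-!
# Averages over finite sets and the limiting functionals
-/

set_option autoImplicit false
set_option linter.unusedSectionVars false
open Filter Topology Set

namespace Pool.Agent.Lib.P2cbf68

variable {α : Type} [DecidableEq α]

/-- The average of `g` over the subsets of `S`. -/
noncomputable def avg (S : Finset α) (g : Finset α → ℝ) : ℝ :=
  (1 / 2 : ℝ) ^ S.card * ∑ F ∈ S.powerset, g F

lemma avg_insert {S : Finset α} {a : α} (ha : a ∉ S) (g : Finset α → ℝ) :
    avg (insert a S) g = (1 / 2) * (avg S g + avg S (fun F => g (insert a F))) := by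
  unfold avg
  rw [Finset.card_insert_of_notMem ha, Finset.sum_powerset_insert ha]
  ring

lemma avg_add (S : Finset α) (g h : Finset α → ℝ) :
    avg S (fun F => g F + h F) = avg S g + avg S h := by
  unfold avg; rw [Finset.sum_add_distrib]; ring

lemma avg_sub (S : Finset α) (g h : Finset α → ℝ) :
    avg S (fun F => g F - h F) = avg S g - avg S h := by
  unfold avg; rw [Finset.sum_sub_distrib]; ring

lemma avg_const_mul (S : Finset α) (c : ℝ) (g : Finset α → ℝ) :
    avg S (fun F => c * g F) = c * avg S g := by
  unfold avg; rw [← Finset.mul_sum]; ring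

lemma avg_const (S : Finset α) (c : ℝ) : avg S (fun _ => c) = c := by
  unfold avg
  rw [Finset.sum_const, Finset.card_powerset, nsmul_eq_mul]
  push_cast
  rw [← mul_assoc, ← mul_pow]
  norm_num

lemma avg_mono (S : Finset α) {g h : Finset α → ℝ} (H : ∀ F ⊆ S, g F ≤ h F) :
    avg S g ≤ avg S h := by
  unfold avg
  apply mul_le_mul_of_nonneg_left _ (by positivity)
  apply Finset.sum_le_sum
  intro F hF
  exact H F (Finset.mem_powerset.1 hF)

lemma avg_congr (S : Finset α) {g h : Finset α → ℝ} (H : ∀ F ⊆ S, g F = h F) :
    avg S g = avg S h := by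
  unfold avg
  congr 1
  apply Finset.sum_congr rfl
  intro F hF
  exact H F (Finset.mem_powerset.1 hF)

lemma avg_sum {ι : Type} (t : Finset ι) (S : Finset α) (g : ι → Finset α → ℝ) :
    avg S (fun F => ∑ i ∈ t, g i F) = ∑ i ∈ t, avg S (g i) := by
  unfold avg
  rw [Finset.sum_comm, Finset.mul_sum]

lemma abs_avg_le (S : Finset α) (g : Finset α → ℝ) : |avg S g| ≤ avg S (fun F => |g F|) := by
  unfold avg
  rw [abs_mul, abs_of_nonneg (by positivity : (0:ℝ) ≤ (1/2) ^ S.card)]
  exact mul_le_mul_of_nonneg_left (Finset.abs_sum_le_sum_abs _ _) (by positivity)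

/-- Averages of functions depending only on `F ∩ S`. -/
lemma avg_union_inter (S R : Finset α) (hd : Disjoint S R) (g : Finset α → ℝ) :
    avg (S ∪ R) (fun F => g (F ∩ S)) = avg S g := by
  induction R using Finset.induction_on with
  | empty =>
    rw [Finset.union_empty]
    apply avg_congr
    intro F hF
    rw [Finset.inter_eq_left.2 hF]
  | insert a R ha ih =>
    have haS : a ∉ S := fun h => (Finset.disjoint_left.1 hd h) (Finset.mem_insert_self a R)
    have hd' : Disjoint S R := hd.mono_right (Finset.subset_insert a R)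
    have e : S ∪ insert a R = insert a (S ∪ R) := by
      rw [Finset.union_insert]
    have ha' : a ∉ S ∪ R := by
      rw [Finset.mem_union, not_or]; exact ⟨haS, ha⟩
    rw [e, avg_insert ha']
    have e2 : avg (S ∪ R) (fun F => g (insert a F ∩ S)) = avg (S ∪ R) (fun F => g (F ∩ S)) := by
      apply avg_congr
      intro F _
      rw [Finset.insert_inter_of_notMem haS]
    rw [e2, ih hd']
    ring

lemma avg_inter {S S' : Finset α} (h : S ⊆ S') (g : Finset α → ℝ) :
    avg S' (fun F => g (F ∩ S)) = avg S g := by
  have h1 := avg_union_inter S (S' \ S) Finset.disjoint_sdiff g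
  rwa [Finset.union_sdiff_of_subset h] at h1

lemma avg_ind {q S : Finset α} (h : q ⊆ S) :
    avg S (fun F => if q ⊆ F then (1 : ℝ) else 0) = (1 / 2 : ℝ) ^ q.card := by
  have h1 := avg_inter h (fun F => if F = q then (1 : ℝ) else 0)
  have h2 : avg S (fun F => if q ⊆ F then (1 : ℝ) else 0) =
      avg S (fun F => if F ∩ q = q then (1 : ℝ) else 0) := by
    apply avg_congr
    intro F _
    simp only [Finset.inter_eq_right]
  rw [h2, h1]
  unfold avg
  rw [Finset.sum_eq_single q]
  · simp
  · intro b _ hb
    simp [hb]
  · intro hq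
    exact absurd (Finset.mem_powerset_self q) hq

/-! ### Inclusion-exclusion -/

/-- The alternating combination. Here `r : α → β` is a restriction map. -/
noncomputable def alt {β : Type} [DecidableEq β] (v : Finset β → ℝ) (W : Finset β) : ℝ :=
  ∑ W' ∈ W.powerset, (-1 : ℝ) ^ (W.card + W'.card) * 2 ^ W'.card * v W'

lemma alt_insert {β : Type} [DecidableEq β] (v : Finset β → ℝ) {W : Finset β} {w : β}
    (hw : w ∉ W) :
    alt v (insert w W) = 2 * alt (fun W' => v (insert w W')) W - alt v W := by
  unfold alt
  rw [Finset.sum_powerset_insert hw, Finset.card_insert_of_notMem hw]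
  have h1 : ∑ t ∈ W.powerset, (-1 : ℝ) ^ (W.card + 1 + t.card) * 2 ^ t.card * v t =
      - ∑ t ∈ W.powerset, (-1 : ℝ) ^ (W.card + t.card) * 2 ^ t.card * v t := by
    rw [← Finset.sum_neg_distrib]
    apply Finset.sum_congr rfl
    intro t _
    ring
  have h2 : ∑ t ∈ W.powerset, (-1 : ℝ) ^ (W.card + 1 + (insert w t).card) * 2 ^ (insert w t).card *
      v (insert w t) =
      2 * ∑ t ∈ W.powerset, (-1 : ℝ) ^ (W.card + t.card) * 2 ^ t.card * v (insert w t) := by
    rw [Finset.mul_sum]
    apply Finset.sum_congr rfl
    intro t ht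
    have : w ∉ t := fun h => hw (Finset.mem_powerset.1 ht h)
    rw [Finset.card_insert_of_notMem this]
    ring
  rw [h1, h2]
  ring

lemma alt_congr {β : Type} [DecidableEq β] {v v' : Finset β → ℝ} {W : Finset β}
    (h : ∀ W' ⊆ W, v W' = v' W') : alt v W = alt v' W := by
  unfold alt
  apply Finset.sum_congr rfl
  intro t ht
  rw [h t (Finset.mem_powerset.1 ht)]

lemma alt_add {β : Type} [DecidableEq β] (v v' : Finset β → ℝ) (W : Finset β) :
    alt (fun t => v t + v' t) W = alt v W + alt v' W := by
  unfold alt
  rw [← Finset.sum_add_distrib]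
  apply Finset.sum_congr rfl
  intro t _
  ring

lemma alt_const_mul {β : Type} [DecidableEq β] (c : ℝ) (v : Finset β → ℝ) (W : Finset β) :
    alt (fun t => c * v t) W = c * alt v W := by
  unfold alt
  rw [Finset.mul_sum]
  apply Finset.sum_congr rfl
  intro t _
  ring

lemma abs_alt_le {β : Type} [DecidableEq β] {v : Finset β → ℝ} {W : Finset β} {ε : ℝ}
    (h : ∀ W' ⊆ W, |v W'| ≤ ε) : |alt v W| ≤ 4 ^ W.card * ε := by
  unfold alt
  refine (Finset.abs_sum_le_sum_abs _ _).trans ?_
  have h1 : ∀ W' ∈ W.powerset, |(-1 : ℝ) ^ (W.card + W'.card) * 2 ^ W'.card * v W'| ≤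
      2 ^ W.card * ε := by
    intro W' hW'
    rw [Finset.mem_powerset] at hW'
    rw [abs_mul, abs_mul, abs_pow, abs_neg, abs_one, one_pow, one_mul, abs_pow, abs_two]
    apply mul_le_mul _ (h W' hW') (abs_nonneg _) (by positivity)
    exact pow_le_pow_right₀ (by norm_num) (Finset.card_le_card hW')
  refine (Finset.sum_le_sum h1).trans ?_
  rw [Finset.sum_const, Finset.card_powerset, nsmul_eq_mul]
  push_cast
  rw [← mul_assoc, ← mul_pow]
  norm_num

/-- The algebraic identity: the alternating combination of averages over the pieces recovers the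
value at the whole piece, when the restriction map is injective on `H`. -/
lemma alt_avg {β : Type} [DecidableEq β] (r : α → β) (H : Finset α)
    (hr : ∀ x ∈ H, ∀ y ∈ H, r x = r y → x = y) (W : Finset β) :
    ∀ g : Finset α → ℝ,
      alt (fun W' => avg (H.filter (fun x => r x ∈ W')) g) W = g (H.filter (fun x => r x ∈ W)) := by
  induction W using Finset.induction_on with
  | empty =>
    intro g
    unfold alt avg
    simp
  | insert w W hw ih =>
    intro g
    rw [alt_insert _ hw]
    by_cases hex : ∃ x ∈ H, r x = w
    · obtain ⟨x, hx, rfl⟩ := hex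
      have hfil : ∀ W' : Finset β, H.filter (fun y => r y ∈ insert (r x) W') =
          insert x (H.filter (fun y => r y ∈ W')) := by
        intro W'
        ext y
        simp only [Finset.mem_filter, Finset.mem_insert]
        constructor
        · rintro ⟨hy, h | h⟩
          · exact Or.inl (hr y hy x hx h)
          · exact Or.inr ⟨hy, h⟩
        · rintro (rfl | ⟨hy, h⟩)
          · exact ⟨hx, Or.inl rfl⟩
          · exact ⟨hy, Or.inr h⟩
      have h1 : alt (fun W' => avg (H.filter (fun y => r y ∈ insert (r x) W')) g) W =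
          alt (fun W' => (1 / 2) * avg (H.filter (fun y => r y ∈ W')) g +
            (1 / 2) * avg (H.filter (fun y => r y ∈ W')) (fun F => g (insert x F))) W := by
        apply alt_congr
        intro W' hW'
        have hx' : x ∉ H.filter (fun y => r y ∈ W') := by
          rw [Finset.mem_filter]
          exact fun h => hw (hW' h.2)
        rw [hfil W', avg_insert hx']
        ring
      rw [h1, alt_add, alt_const_mul, alt_const_mul, ih, ih (fun F => g (insert x F)), hfil]
      ring
    · push Not at hex
      have hfil : ∀ W' : Finset β, H.filter (fun y => r y ∈ insert w W') =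
          H.filter (fun y => r y ∈ W') := by
        intro W'
        ext y
        simp only [Finset.mem_filter, Finset.mem_insert]
        constructor
        · rintro ⟨hy, h | h⟩
          · exact absurd h (hex y hy)
          · exact ⟨hy, h⟩
        · rintro ⟨hy, h⟩
          exact ⟨hy, Or.inr h⟩
      have h1 : alt (fun W' => avg (H.filter (fun y => r y ∈ insert w W')) g) W =
          alt (fun W' => avg (H.filter (fun y => r y ∈ W')) g) W := by
        apply alt_congr
        intro W' _
        rw [hfil]
      rw [h1, ih, hfil]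
      ring

end Pool.Agent.Lib.P2cbf68
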