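import Pool.Agent.Lib.P2cbf68.Avg

/-!
# The limiting functionals on `C(Kc)`
-/

set_option autoImplicit false
open Filter Topology Set
open scoped Classical

namespace Pool.Agent.Lib.P2cbf68

/-- The approximating averages. -/
noncomputable def MH (T : Set Gam) (H : Finset Gam) (f : C(Kc, ℝ)) : ℝ :=
  avg (H.filter (fun x => x ∈ T)) (fun F => f (trim F))

lemma MH_eq (T : Set Gam) (H : Finset Gam) (f : C(Kc, ℝ)) (p : Gam → Prop) [DecidablePred p]
    (hp : ∀ x, x ∈ T ↔ p x) : MH T H f = avg (H.filter p) (fun F => f (trim F)) := by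
  unfold MH
  congr 1
  ext x
  rw [Finset.mem_filter, Finset.mem_filter, hp]

lemma abs_le_norm (f : C(Kc, ℝ)) (a : Kc) : |f a| ≤ ‖f‖ := by
  have := f.norm_coe_le_norm a
  rwa [Real.norm_eq_abs] at this

lemma abs_MH_le (T : Set Gam) (H : Finset Gam) (f : C(Kc, ℝ)) : |MH T H f| ≤ ‖f‖ := by
  unfold MH
  refine (abs_avg_le _ _).trans ?_
  refine (avg_mono _ (h := fun _ => ‖f‖) ?_).trans (avg_const _ _).le
  intro F _
  exact abs_le_norm f _

/-- Uniform Cauchy property. -/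
lemma MH_cauchy (f : C(Kc, ℝ)) (ε : ℝ) (hε : 0 < ε) :
    ∃ H₀ : Finset Gam, ∀ T : Set Gam, ∀ H : Finset Gam, H₀ ⊆ H → |MH T H f - MH T H₀ f| ≤ ε := by
  obtain ⟨G, hG⟩ := exists_finite_dep f (ε / 2) (by linarith)
  set δ : ℝ := ε / (4 * (‖f‖ + 1) * (G.card + 1)) with hδ
  have hδpos : 0 < δ := by
    rw [hδ]; positivity
  choose Q hQ using fun ξ => Pf_tail ξ δ hδpos
  let H₀ : Finset Gam := G ∪ G.biUnion (fun ξ => (Q ξ).biUnion id)
  refine ⟨H₀, fun T H hH => ?_⟩
  set S' := H.filter (fun x => x ∈ T) with hS'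
  set S := H₀.filter (fun x => x ∈ T) with hS
  have hSS' : S ⊆ S' := Finset.filter_subset_filter _ hH
  have h1 : MH T H₀ f = avg S' (fun F => f (trim (F ∩ S))) := by
    unfold MH
    rw [← hS, avg_inter hSS' (fun F => f (trim F))]
  rw [h1]
  unfold MH
  rw [← hS', ← avg_sub]
  -- the bad sets
  let B : Gam → Finset (Finset Gam) := fun ξ => S'.powerset.filter (fun q => q ∈ Pf ξ ∧ q ∉ Q ξ)
  have hpt : ∀ F ⊆ S', |f (trim F) - f (trim (F ∩ S))| ≤
      ε / 2 + 2 * ‖f‖ * ∑ ξ ∈ G, ∑ q ∈ B ξ, (if q ⊆ F then (1:ℝ) else 0) := by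
    intro F hF
    have hnn : ∀ ξ : Gam, 0 ≤ ∑ q ∈ B ξ, (if q ⊆ F then (1:ℝ) else 0) := by
      intro ξ
      apply Finset.sum_nonneg
      intro q _
      split_ifs <;> norm_num
    by_cases hag : ∀ ξ ∈ G, (trim F).1 ξ = (trim (F ∩ S)).1 ξ
    · have h2 := hG (trim F) (trim (F ∩ S)) hag
      have h3 : 0 ≤ 2 * ‖f‖ * ∑ ξ ∈ G, ∑ q ∈ B ξ, (if q ⊆ F then (1:ℝ) else 0) := by
        have := Finset.sum_nonneg (s := G) (fun ξ _ => hnn ξ)
        have := norm_nonneg f
        positivity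
      linarith
    · push Not at hag
      obtain ⟨ξ, hξG, hne⟩ := hag
      have hFT : ∀ x ∈ F, x ∈ T := fun x hx => (Finset.mem_filter.1 (hF hx)).2
      have hFS : ∀ x ∈ F, x ∈ H₀ → x ∈ S := fun x hx hx0 =>
        Finset.mem_filter.2 ⟨hx0, hFT x hx⟩
      have hGH : G ⊆ H₀ := Finset.subset_union_left
      -- find the bad q
      have hbad : ∃ q ∈ B ξ, q ⊆ F := by
        by_contra hcon
        push Not at hcon
        apply hne
        have key : (trim F).1 ξ = true ↔ (trim (F ∩ S)).1 ξ = true := by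
          rw [trim_apply, trim_apply]
          constructor
          · rintro ⟨h1, h2⟩
            refine ⟨Finset.mem_inter.2 ⟨h1, hFS ξ h1 (hGH hξG)⟩, fun q hq hqF => ?_⟩
            exact h2 q hq (hqF.trans Finset.inter_subset_left)
          · rintro ⟨h1, h2⟩
            refine ⟨(Finset.mem_inter.1 h1).1, fun q hq hqF => ?_⟩
            by_cases hqQ : q ∈ Q ξ
            · apply h2 q hq
              intro x hx
              refine Finset.mem_inter.2 ⟨hqF hx, hFS x (hqF hx) ?_⟩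
              apply Finset.mem_union_right
              rw [Finset.mem_biUnion]
              refine ⟨ξ, hξG, ?_⟩
              rw [Finset.mem_biUnion]
              exact ⟨q, hqQ, hx⟩
            · exact hcon q (Finset.mem_filter.2 ⟨Finset.mem_powerset.2 (hqF.trans hF), hq, hqQ⟩) hqF
        cases h1 : (trim F).1 ξ <;> cases h2 : (trim (F ∩ S)).1 ξ <;> simp_all
      obtain ⟨q, hqB, hqF⟩ := hbad
      have h2 : (1:ℝ) ≤ ∑ q ∈ B ξ, (if q ⊆ F then (1:ℝ) else 0) := by
        have h3 := Finset.single_le_sum (f := fun q : Finset Gam => if q ⊆ F then (1:ℝ) else 0)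
          (s := B ξ) (fun q _ => by split_ifs <;> norm_num) hqB
        simp only [hqF, if_true] at h3
        exact h3
      have h4 : (1:ℝ) ≤ ∑ ξ ∈ G, ∑ q ∈ B ξ, (if q ⊆ F then (1:ℝ) else 0) :=
        h2.trans (Finset.single_le_sum (f := fun ξ : Gam => ∑ q ∈ B ξ, (if q ⊆ F then (1:ℝ) else 0))
          (fun ξ _ => hnn ξ) hξG)
      have h5 : |f (trim F) - f (trim (F ∩ S))| ≤ 2 * ‖f‖ := by
        have := abs_sub (f (trim F)) (f (trim (F ∩ S)))
        have := abs_le_norm f (trim F)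
        have := abs_le_norm f (trim (F ∩ S))
        linarith
      have h6 : 2 * ‖f‖ * 1 ≤ 2 * ‖f‖ * ∑ ξ ∈ G, ∑ q ∈ B ξ, (if q ⊆ F then (1:ℝ) else 0) :=
        mul_le_mul_of_nonneg_left h4 (by positivity)
      linarith
  refine (abs_avg_le _ _).trans ((avg_mono _ hpt).trans ?_)
  rw [avg_add, avg_const, avg_const_mul, avg_sum]
  have hsum : ∀ ξ ∈ G, avg S' (fun F => ∑ q ∈ B ξ, (if q ⊆ F then (1:ℝ) else 0)) ≤ δ := by
    intro ξ _
    rw [avg_sum]
    have h2 : ∑ q ∈ B ξ, avg S' (fun F => if q ⊆ F then (1:ℝ) else 0) =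
        ∑ q ∈ B ξ, (1 / 2 : ℝ) ^ q.card := by
      apply Finset.sum_congr rfl
      intro q hq
      exact avg_ind (Finset.mem_powerset.1 (Finset.mem_filter.1 hq).1)
    rw [h2]
    exact hQ ξ (B ξ) (fun q hq => (Finset.mem_filter.1 hq).2)
  have h2 := Finset.sum_le_sum hsum
  rw [Finset.sum_const, nsmul_eq_mul] at h2
  have h3 : 2 * ‖f‖ * ∑ ξ ∈ G, avg S' (fun F => ∑ q ∈ B ξ, (if q ⊆ F then (1:ℝ) else 0)) ≤
      2 * ‖f‖ * (G.card * δ) := mul_le_mul_of_nonneg_left h2 (by positivity)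
  have h4 : 2 * ‖f‖ * (G.card * δ) ≤ ε / 2 := by
    have e1 : δ * (4 * (‖f‖ + 1) * (G.card + 1)) = ε := by
      rw [hδ]
      field_simp
    have : (0:ℝ) ≤ G.card := by positivity
    have := norm_nonneg f
    nlinarith [mul_nonneg (norm_nonneg f) (show (0:ℝ) ≤ G.card by positivity), mul_pos hδpos hδpos,
      mul_nonneg (norm_nonneg f) hδpos.le, mul_nonneg (show (0:ℝ) ≤ G.card by positivity) hδpos.le]
  linarith

/-- Limits of the averages. -/
noncomputable def muFun (T : Set Gam) (f : C(Kc, ℝ)) : ℝ :=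
  limUnder (atTop : Filter (Finset Gam)) (fun H => MH T H f)

lemma tendsto_muFun (T : Set Gam) (f : C(Kc, ℝ)) :
    Tendsto (fun H => MH T H f) atTop (𝓝 (muFun T f)) := by
  have hc : CauchySeq (fun H => MH T H f) := by
    rw [Metric.cauchySeq_iff']
    intro ε hε
    obtain ⟨H₀, hH₀⟩ := MH_cauchy f (ε / 2) (by linarith)
    refine ⟨H₀, fun H hH => ?_⟩
    rw [Real.dist_eq]
    exact (hH₀ T H hH).trans_lt (by linarith)
  exact hc.tendsto_limUnder

lemma MH_add (T : Set Gam) (H : Finset Gam) (f g : C(Kc, ℝ)) :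
    MH T H (f + g) = MH T H f + MH T H g := by
  unfold MH; rw [← avg_add]; rfl

lemma MH_smul (T : Set Gam) (H : Finset Gam) (c : ℝ) (f : C(Kc, ℝ)) :
    MH T H (c • f) = c * MH T H f := by
  unfold MH; rw [← avg_const_mul]; rfl

/-- The limiting functionals. -/
noncomputable def mu (T : Set Gam) : C(Kc, ℝ) →L[ℝ] ℝ :=
  LinearMap.mkContinuous
    { toFun := muFun T
      map_add' := by
        intro f g
        have h1 := (tendsto_muFun T f).add (tendsto_muFun T g)
        have h2 := tendsto_muFun T (f + g)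
        refine tendsto_nhds_unique h2 (h1.congr fun H => ?_)
        rw [MH_add]
      map_smul' := by
        intro c f
        have h1 := (tendsto_muFun T f).const_mul c
        have h2 := tendsto_muFun T (c • f)
        refine tendsto_nhds_unique h2 (h1.congr fun H => ?_)
        rw [MH_smul] } 1 (by
    intro f
    rw [one_mul, Real.norm_eq_abs]
    have h1 := (tendsto_muFun T f).abs
    exact le_of_tendsto h1 (Eventually.of_forall fun H => abs_MH_le T H f))

lemma mu_approx (f : C(Kc, ℝ)) (ε : ℝ) (hε : 0 < ε) :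
    ∃ H₀ : Finset Gam, ∀ T : Set Gam, ∀ H : Finset Gam, H₀ ⊆ H → |mu T f - MH T H f| ≤ ε := by
  obtain ⟨H₀, hH₀⟩ := MH_cauchy f (ε / 2) (by linarith)
  refine ⟨H₀, fun T H hH => ?_⟩
  have h1 : Tendsto (fun H' => |MH T H' f - MH T H f|) atTop (𝓝 |mu T f - MH T H f|) :=
    ((tendsto_muFun T f).sub_const _).abs
  refine le_of_tendsto h1 ?_
  filter_upwards [eventually_ge_atTop H₀] with H' hH'
  have h2 := hH₀ T H' hH'
  have h3 := hH₀ T H hH
  have h4 : MH T H' f - MH T H f = (MH T H' f - MH T H₀ f) - (MH T H f - MH T H₀ f) := by ring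
  rw [h4]
  have := abs_sub (MH T H' f - MH T H₀ f) (MH T H f - MH T H₀ f)
  linarith

end Pool.Agent.Lib.P2cbf68
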