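import Pool.Agent.Lib.P2cbf68.Fun

/-!
# Measurability of the norm
-/

set_option autoImplicit false
open Filter Topology Set
open scoped Classical

namespace Pool.Agent.Lib.P2cbf68

/-- Restriction to the first `n` coordinates. -/
def res (n : ℕ) (x : Gam) : Fin n → Bool := fun i => x i

lemma exists_inj (H : Finset Gam) :
    ∃ n₀ : ℕ, ∀ n ≥ n₀, ∀ x ∈ H, ∀ y ∈ H, res n x = res n y → x = y := by
  have h : ∀ x y : Gam, ∃ i : ℕ, x ≠ y → x i ≠ y i := by
    intro x y
    by_cases hxy : x = y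
    · exact ⟨0, fun h => absurd hxy h⟩
    · obtain ⟨i, hi⟩ := Function.ne_iff.1 hxy
      exact ⟨i, fun _ => hi⟩
  choose i hi using h
  refine ⟨(H ×ˢ H).sup (fun p => i p.1 p.2 + 1), fun n hn x hx y hy hxy => ?_⟩
  by_contra hne
  have h1 : i x y + 1 ≤ n :=
    (Finset.le_sup (f := fun p : Gam × Gam => i p.1 p.2 + 1)
      (Finset.mem_product.2 ⟨hx, hy⟩ : (x, y) ∈ H ×ˢ H)).trans hn
  exact hi x y hne (congrFun hxy ⟨i x y, by omega⟩)

/-- The functionals `g_{n,W}`. -/
noncomputable def gf (n : ℕ) (W : Finset (Fin n → Bool)) (f : C(Kc, ℝ)) : ℝ :=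
  alt (fun W' => mu {x | res n x ∈ W'} f) W

lemma gf_approx (f : C(Kc, ℝ)) (ε : ℝ) (hε : 0 < ε) :
    ∃ H₀ : Finset Gam, ∀ H : Finset Gam, H₀ ⊆ H → ∀ n : ℕ,
      (∀ x ∈ H, ∀ y ∈ H, res n x = res n y → x = y) → ∀ W : Finset (Fin n → Bool),
      |gf n W f - f (trim (H.filter (fun x => res n x ∈ W)))| ≤ 4 ^ W.card * ε := by
  obtain ⟨H₀, hH₀⟩ := mu_approx f ε hε
  refine ⟨H₀, fun H hH n hn W => ?_⟩
  have h1 := alt_avg (res n) H hn W (fun F => f (trim F))
  rw [← h1]
  have h2 : gf n W f - alt (fun W' => avg (H.filter (fun x => res n x ∈ W')) (fun F => f (trim F))) W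
      = alt (fun W' => mu {x | res n x ∈ W'} f + (-1) * MH {x | res n x ∈ W'} H f) W := by
    rw [alt_add, alt_const_mul]
    have : alt (fun W' => avg (H.filter (fun x => res n x ∈ W')) (fun F => f (trim F))) W =
        alt (fun W' => MH {x | res n x ∈ W'} H f) W := by
      apply alt_congr
      intro W' _
      rw [MH_eq {x | res n x ∈ W'} H f (fun x => res n x ∈ W') (fun x => Iff.rfl)]
    rw [this]
    unfold gf
    ring
  rw [h2]
  apply abs_alt_le
  intro W' _
  have h3 := hH₀ {x | res n x ∈ W'} H hH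
  have h4 : mu {x | res n x ∈ W'} f + (-1) * MH {x | res n x ∈ W'} H f =
      mu {x | res n x ∈ W'} f - MH {x | res n x ∈ W'} H f := by ring
  rw [h4]
  exact h3

lemma norm_le_iff (f : C(Kc, ℝ)) (r : ℝ) :
    ‖f‖ ≤ r ↔ ∀ k j : ℕ, ∃ n₀ : ℕ, ∀ n : ℕ, ∀ W : Finset (Fin n → Bool), n₀ ≤ n → W.card ≤ k →
      |gf n W f| ≤ r + 1 / ((j : ℝ) + 1) := by
  constructor
  · intro hr k j
    have hj : (0:ℝ) < 1 / ((j : ℝ) + 1) := by positivity
    obtain ⟨H₀, hH₀⟩ := gf_approx f (1 / ((j : ℝ) + 1) / 4 ^ k) (by positivity)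
    obtain ⟨n₀, hn₀⟩ := exists_inj H₀
    refine ⟨n₀, fun n W hn hW => ?_⟩
    have h1 := hH₀ H₀ (Finset.Subset.refl _) n (hn₀ n hn) W
    have h2 := abs_le_norm f (trim (H₀.filter (fun x => res n x ∈ W)))
    have h3 : (4:ℝ) ^ W.card * (1 / ((j : ℝ) + 1) / 4 ^ k) ≤ 1 / ((j : ℝ) + 1) := by
      have h4 : (4:ℝ) ^ W.card ≤ 4 ^ k := pow_le_pow_right₀ (by norm_num) hW
      calc (4:ℝ) ^ W.card * (1 / ((j : ℝ) + 1) / 4 ^ k)
          ≤ 4 ^ k * (1 / ((j : ℝ) + 1) / 4 ^ k) :=
            mul_le_mul_of_nonneg_right h4 (by positivity)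
        _ = 1 / ((j : ℝ) + 1) := by field_simp
    have h5 : |gf n W f| ≤ |gf n W f - f (trim (H₀.filter (fun x => res n x ∈ W)))| +
        |f (trim (H₀.filter (fun x => res n x ∈ W)))| := by
      have := abs_add_le (gf n W f - f (trim (H₀.filter (fun x => res n x ∈ W))))
        (f (trim (H₀.filter (fun x => res n x ∈ W))))
      simpa using this
    linarith
  · intro h
    have : Nonempty Kc := ⟨trim ∅⟩
    rw [ContinuousMap.norm_le_of_nonempty]
    intro a
    rw [Real.norm_eq_abs]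
    refine le_of_forall_pos_le_add fun ε hε => ?_
    obtain ⟨G, hG⟩ := exists_finite_dep f (ε / 3) (by linarith)
    let A : Finset Gam := G.filter (fun ξ => a.1 ξ = true)
    have hA : ∀ ξ ∈ A, a.1 ξ = true := fun ξ hξ => (Finset.mem_filter.1 hξ).2
    have h1 : |f a - f (trim A)| < ε / 3 := by
      apply hG
      intro ξ hξ
      have h2 := trim_of_subset hA (ξ := ξ)
      cases h3 : a.1 ξ
      · cases h4 : (trim A).1 ξ
        · rfl
        · exfalso
          have := hA ξ (h2.1 h4)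
          rw [h3] at this
          exact absurd this (by simp)
      · exact (h2.2 (Finset.mem_filter.2 ⟨hξ, h3⟩)).symm
    obtain ⟨j, hj⟩ := exists_nat_one_div_lt (show (0:ℝ) < ε / 3 by linarith)
    obtain ⟨n₀, hn₀⟩ := h A.card j
    obtain ⟨H₀, hH₀⟩ := gf_approx f (ε / 3 / 4 ^ A.card) (by positivity)
    obtain ⟨n₁, hn₁⟩ := exists_inj (H₀ ∪ A)
    set n := max n₀ n₁ with hn
    have hinj := hn₁ n (le_max_right _ _)
    let W : Finset (Fin n → Bool) := A.image (res n)
    have hWc : W.card ≤ A.card := Finset.card_image_le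
    have h3 := hn₀ n W (le_max_left _ _) hWc
    have h4 := hH₀ (H₀ ∪ A) Finset.subset_union_left n hinj W
    have h5 : (H₀ ∪ A).filter (fun x => res n x ∈ W) = A := by
      ext x
      rw [Finset.mem_filter]
      constructor
      · rintro ⟨hx, hxW⟩
        obtain ⟨y, hy, hyx⟩ := Finset.mem_image.1 hxW
        rw [← hinj y (Finset.mem_union_right _ hy) x hx hyx]
        exact hy
      · intro hx
        exact ⟨Finset.mem_union_right _ hx, Finset.mem_image_of_mem _ hx⟩
    rw [h5] at h4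
    have h6 : (4:ℝ) ^ W.card * (ε / 3 / 4 ^ A.card) ≤ ε / 3 := by
      have h7 : (4:ℝ) ^ W.card ≤ 4 ^ A.card := pow_le_pow_right₀ (by norm_num) hWc
      calc (4:ℝ) ^ W.card * (ε / 3 / 4 ^ A.card)
          ≤ 4 ^ A.card * (ε / 3 / 4 ^ A.card) :=
            mul_le_mul_of_nonneg_right h7 (by positivity)
        _ = ε / 3 := by field_simp
    have h8 : |f a| ≤ |f a - f (trim A)| + |f (trim A)| := by
      have := abs_add_le (f a - f (trim A)) (f (trim A))
      simpa using this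
    have h9 : |f (trim A)| ≤ |gf n W f - f (trim A)| + |gf n W f| := by
      have := abs_sub (gf n W f) (gf n W f - f (trim A))
      have e : gf n W f - (gf n W f - f (trim A)) = f (trim A) := by ring
      rw [e] at this
      linarith
    linarith

/-- The `σ`-algebra generated by the continuous linear functionals. -/
@[reducible] def baire (X : Type) [NormedAddCommGroup X] [NormedSpace ℝ X] : MeasurableSpace X :=
  ⨆ φ : X →L[ℝ] ℝ, MeasurableSpace.comap (fun x => φ x) inferInstance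

lemma measurable_fun_baire {X : Type} [NormedAddCommGroup X] [NormedSpace ℝ X] (φ : X →L[ℝ] ℝ) :
    @Measurable _ _ (baire X) _ (fun x => φ x) := by
  rw [measurable_iff_comap_le]
  exact le_iSup (fun φ : X →L[ℝ] ℝ => MeasurableSpace.comap (fun x => φ x) inferInstance) φ

theorem measurable_norm_Kc : @Measurable _ _ (baire C(Kc, ℝ)) _ (fun f : C(Kc, ℝ) => ‖f‖) := by
  let _ : MeasurableSpace C(Kc, ℝ) := baire C(Kc, ℝ)
  have hmu : ∀ T : Set Gam, Measurable (fun f : C(Kc, ℝ) => mu T f) := fun T =>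
    measurable_fun_baire (mu T)
  have hgf : ∀ (n : ℕ) (W : Finset (Fin n → Bool)), Measurable (fun f : C(Kc, ℝ) => gf n W f) := by
    intro n W
    unfold gf alt
    apply Finset.measurable_fun_sum
    intro W' _
    exact (hmu _).const_mul _
  apply measurable_of_Iic
  intro r
  have : (fun f : C(Kc, ℝ) => ‖f‖) ⁻¹' Set.Iic r =
      ⋂ k : ℕ, ⋂ j : ℕ, ⋃ n₀ : ℕ, ⋂ n : ℕ, ⋂ W : Finset (Fin n → Bool),
        {f : C(Kc, ℝ) | n₀ ≤ n → W.card ≤ k → |gf n W f| ≤ r + 1 / ((j : ℝ) + 1)} := by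
    ext f
    simp only [Set.mem_preimage, Set.mem_Iic, Set.mem_iInter, Set.mem_iUnion, Set.mem_ofPred_eq]
    exact norm_le_iff f r
  rw [this]
  refine MeasurableSet.iInter fun k => MeasurableSet.iInter fun j => MeasurableSet.iUnion fun n₀ =>
    MeasurableSet.iInter fun n => MeasurableSet.iInter fun W => ?_
  by_cases h : n₀ ≤ n ∧ W.card ≤ k
  · have e : {f : C(Kc, ℝ) | n₀ ≤ n → W.card ≤ k → |gf n W f| ≤ r + 1 / ((j : ℝ) + 1)} =
        {f : C(Kc, ℝ) | |gf n W f| ≤ r + 1 / ((j : ℝ) + 1)} := by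
      ext f
      simp [h.1, h.2]
    rw [e]
    exact measurableSet_le ((hgf n W).abs) measurable_const
  · have e : {f : C(Kc, ℝ) | n₀ ≤ n → W.card ≤ k → |gf n W f| ≤ r + 1 / ((j : ℝ) + 1)} =
        Set.univ := by
      ext f
      simp only [Set.mem_ofPred_eq, Set.mem_univ, iff_true]
      intro h1 h2
      exact absurd ⟨h1, h2⟩ h
    rw [e]
    exact MeasurableSet.univ

end Pool.Agent.Lib.P2cbf68
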