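import Pool.Agent.Lib.P2cbf68.Meas

/-!
# The dual ball is not weak-star separable
-/

set_option autoImplicit false
open Filter Topology Set
open scoped Classical

namespace Pool.Agent.Lib.P2cbf68

/-- Coordinate functions. -/
noncomputable def cf (ξ : Gam) : C(Kc, ℝ) :=
  ⟨fun a => if a.1 ξ = true then 1 else 0, by
    have h : Continuous (fun b : Bool => if b = true then (1:ℝ) else 0) :=
      continuous_of_discreteTopology
    exact h.comp ((continuous_apply ξ).comp continuous_subtype_val)⟩

/-- Indicator of `{A : F ⊆ A}`. -/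
noncomputable def ind (F : Finset Gam) : C(Kc, ℝ) := ∏ ξ ∈ F, cf ξ

lemma ind_apply (F : Finset Gam) (a : Kc) :
    ind F a = if ∀ ξ ∈ F, a.1 ξ = true then 1 else 0 := by
  unfold ind
  rw [ContinuousMap.coe_prod, Finset.prod_apply]
  exact Finset.prod_boole

/-- Either many pairwise disjoint members or a finite transversal. -/
lemma dich (I : Set (Finset Gam)) (M : ℕ) :
    (∃ F : ℕ → Finset Gam, (∀ i < M, F i ∈ I) ∧ ∀ i < M, ∀ j < M, i ≠ j → Disjoint (F i) (F j)) ∨
      ∃ Z : Finset Gam, ∀ F ∈ I, ¬ Disjoint F Z := by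
  induction M with
  | zero => exact Or.inl ⟨fun _ => ∅, by simp, by simp⟩
  | succ M ih =>
    rcases ih with ⟨F, hF1, hF2⟩ | h
    · by_cases hex : ∃ F' ∈ I, Disjoint F' ((Finset.range M).biUnion F)
      · obtain ⟨F', hF', hd⟩ := hex
        rw [Finset.disjoint_biUnion_right] at hd
        left
        refine ⟨fun i => if i = M then F' else F i, ?_, ?_⟩
        · intro i hi
          by_cases h : i = M
          · simp only [h, if_true]; exact hF'
          · simp only [h, if_false]; exact hF1 i (by omega)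
        · intro i hi j hj hij
          by_cases h : i = M
          · have hj' : j ≠ M := fun h' => hij (h.trans h'.symm)
            simp only [h, hj', if_true, if_false]
            exact hd j (Finset.mem_range.2 (by omega))
          · by_cases h' : j = M
            · simp only [h, h', if_true, if_false]
              exact (hd i (Finset.mem_range.2 (by omega))).symm
            · simp only [h, h', if_false]
              exact hF2 i (by omega) j (by omega) hij
      · push Not at hex
        exact Or.inr ⟨_, hex⟩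
    · exact Or.inr h

lemma uncountable_gam : ¬ (Set.univ : Set Gam).Countable := by
  intro h
  rw [Set.countable_univ_iff] at h
  have h1 := Cardinal.mk_le_aleph0_iff.2 h
  rw [mk_gam] at h1
  exact absurd h1 (not_le.2 Cardinal.aleph0_lt_continuum)

/-- The main step. -/
lemma no_seq (l : ℕ → (C(Kc, ℝ) →L[ℝ] ℝ)) (hl : ∀ k, ‖l k‖ ≤ 1)
    (h : ∀ F : Finset Gam, F.card = 3 → ∃ k, 3 / 4 < l k (ind F)) : False := by
  let I : ℕ → Set (Finset Gam) := fun k => {F | F.card = 3 ∧ 3 / 4 < l k (ind F)}
  let act : ℕ → Prop := fun k => ∃ F : ℕ → Finset Gam, (∀ i < 2 * k + 8, F i ∈ I k) ∧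
    ∀ i < 2 * k + 8, ∀ j < 2 * k + 8, i ≠ j → Disjoint (F i) (F j)
  have hF : ∀ k, ∃ F : ℕ → Finset Gam, act k → (∀ i < 2 * k + 8, F i ∈ I k) ∧
      ∀ i < 2 * k + 8, ∀ j < 2 * k + 8, i ≠ j → Disjoint (F i) (F j) := by
    intro k
    by_cases hk : act k
    · obtain ⟨F, hF⟩ := hk
      exact ⟨F, fun _ => hF⟩
    · exact ⟨fun _ => ∅, fun hk' => absurd hk' hk⟩
  choose F hF using hF
  have hZ : ∀ k, ∃ Z : Finset Gam, ¬ act k → ∀ F ∈ I k, ¬ Disjoint F Z := by
    intro k
    rcases dich (I k) (2 * k + 8) with h1 | ⟨Z, hZ⟩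
    · exact ⟨∅, fun hk => absurd h1 hk⟩
    · exact ⟨Z, fun _ => hZ⟩
  choose Z hZ using hZ
  -- the code
  let ρ : Code := fun i => if act i.1 ∧ i.2 ⊆ Finset.range (2 * i.1 + 8) ∧ i.2.card = i.1 + 4 then
    i.2.biUnion (F i.1) else ∅
  have hcard : ∀ k (J : Finset ℕ), act k → J ⊆ Finset.range (2 * k + 8) → J.card = k + 4 →
      (J.biUnion (F k)).card = 3 * (k + 4) := by
    intro k J hk hJ hJc
    rw [Finset.card_biUnion]
    · rw [Finset.sum_congr rfl (g := fun _ => 3)]
      · rw [Finset.sum_const, hJc, smul_eq_mul, mul_comm]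
      · intro i hi
        exact ((hF k hk).1 i (Finset.mem_range.1 (hJ hi))).1
    · intro i hi j hj hij
      exact (hF k hk).2 i (Finset.mem_range.1 (hJ hi)) j (Finset.mem_range.1 (hJ hj)) hij
  have hwt0 : wt ∅ = 0 := by unfold wt; simp
  have hwt : ∀ k (J : Finset ℕ), wt (ρ (k, J)) ≤ (1 / 2 : ℝ) ^ (3 * (k + 4)) := by
    intro k J
    by_cases hc : act k ∧ J ⊆ Finset.range (2 * k + 8) ∧ J.card = k + 4
    · have e : ρ (k, J) = J.biUnion (F k) := if_pos hc
      rw [e]
      unfold wt
      rw [hcard k J hc.1 hc.2.1 hc.2.2, if_pos (by omega)]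
    · have e : ρ (k, J) = ∅ := if_neg hc
      rw [e, hwt0]
      positivity
  have hsum : Summable (fun i => wt (ρ i)) := by
    rw [summable_prod_of_nonneg (fun i => wt_nonneg _)]
    have hz : ∀ k, ∀ J ∉ (Finset.range (2 * k + 8)).powerset, wt (ρ (k, J)) = 0 := by
      intro k J hJ
      have e : ρ (k, J) = ∅ := if_neg (fun hc => hJ (Finset.mem_powerset.2 hc.2.1))
      rw [e, hwt0]
    refine ⟨fun k => summable_of_ne_finset_zero (s := (Finset.range (2 * k + 8)).powerset)
      (hz k), ?_⟩
    have hg : Summable (fun k : ℕ => (1 / 2 : ℝ) ^ k) := summable_geometric_two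
    refine Summable.of_nonneg_of_le (fun k => tsum_nonneg fun J => wt_nonneg _) (fun k => ?_) hg
    rw [tsum_eq_sum (hz k)]
    refine (Finset.sum_le_sum fun J _ => hwt k J).trans ?_
    rw [Finset.sum_const, Finset.card_powerset, Finset.card_range, nsmul_eq_mul]
    push_cast
    have e1 : (2:ℝ) ^ (2 * k + 8) * (1 / 2) ^ (3 * (k + 4)) = (1/2) ^ k * (1 / 16) := by
      rw [show 3 * (k + 4) = (2 * k + 8) + (k + 4) by ring, pow_add (1 / 2 : ℝ) (2 * k + 8),
        ← mul_assoc, ← mul_pow, pow_add (1 / 2 : ℝ) k 4]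
      norm_num
    rw [e1]
    have : (0:ℝ) < (1/2) ^ k := by positivity
    linarith
  -- the fibre
  let S : Set Gam := {ξ | cod ξ = ρ ∧ ∀ k, ξ ∉ Z k}
  have hS : S.Infinite := by
    intro hfin
    have hZc : (⋃ k, (Z k : Set Gam)).Countable := Set.countable_iUnion fun k =>
      (Z k).countable_toSet
    have hr : Set.range (fun x : Gam => eqv.symm (ρ, x)) ⊆ S ∪ ⋃ k, (Z k : Set Gam) := by
      rintro _ ⟨x, rfl⟩
      by_cases hx : ∃ k, eqv.symm (ρ, x) ∈ Z k
      · obtain ⟨k, hk⟩ := hx
        exact Or.inr (Set.mem_iUnion.2 ⟨k, hk⟩)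
      · push Not at hx
        refine Or.inl ⟨?_, hx⟩
        unfold cod
        rw [Equiv.apply_symm_apply]
    have hrc := (hfin.countable.union hZc).mono hr
    have hinj : Function.Injective (fun x : Gam => eqv.symm (ρ, x)) := by
      intro x y hxy
      have := eqv.symm.injective hxy
      exact (Prod.mk.inj this).2
    rw [← Set.image_univ] at hrc
    exact uncountable_gam ((Set.countable_of_injective_of_countable_image hinj.injOn) hrc)
  obtain ⟨T, hTS, hTc⟩ := hS.exists_subset_card_eq 3
  obtain ⟨k, hk⟩ := h T hTc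
  have hTI : T ∈ I k := ⟨hTc, hk⟩
  by_cases hact : act k
  · set M : ℕ := 2 * k + 8 with hM
    let g : C(Kc, ℝ) := (M : ℝ) • ind T + ∑ i ∈ Finset.range M, ind (F k i)
    have hlow : 3 / 2 * (M : ℝ) < l k g := by
      have e : l k g = (M : ℝ) * l k (ind T) + ∑ i ∈ Finset.range M, l k (ind (F k i)) := by
        simp [g]
      rw [e]
      have h1 : (M:ℝ) * (3 / 4) ≤ ∑ i ∈ Finset.range M, l k (ind (F k i)) := by
        have := Finset.card_nsmul_le_sum (Finset.range M) (fun i => l k (ind (F k i))) (3/4)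
          (fun i hi => (((hF k hact).1 i (Finset.mem_range.1 hi)).2).le)
        rw [Finset.card_range, nsmul_eq_mul] at this
        exact this
      have hMpos : (0:ℝ) < M := by
        rw [hM]; push_cast; positivity
      have h2 : (M:ℝ) * (3/4) < (M:ℝ) * l k (ind T) := mul_lt_mul_of_pos_left hk hMpos
      linarith
    have hup : ‖g‖ ≤ 3 / 2 * (M : ℝ) := by
      rw [ContinuousMap.norm_le _ (by positivity)]
      intro a
      set J : Finset ℕ := (Finset.range M).filter (fun i => ∀ ξ ∈ F k i, a.1 ξ = true) with hJ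
      have hga : g a = (M : ℝ) * (if ∀ ξ ∈ T, a.1 ξ = true then 1 else 0) + J.card := by
        have e : g a = (M : ℝ) * ind T a + ∑ i ∈ Finset.range M, ind (F k i) a := by
          simp [g]
        rw [e, ind_apply]
        congr 1
        rw [hJ, Finset.card_filter]
        push_cast
        apply Finset.sum_congr rfl
        intro i _
        rw [ind_apply]
      have hJM : (J.card : ℝ) ≤ M := by
        have := Finset.card_filter_le (Finset.range M) (fun i => ∀ ξ ∈ F k i, a.1 ξ = true)
        rw [Finset.card_range] at this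
        exact_mod_cast this
      have hJ0 : (0:ℝ) ≤ J.card := by positivity
      have hM0 : (0:ℝ) ≤ M := by positivity
      rw [hga]
      by_cases hT : ∀ ξ ∈ T, a.1 ξ = true
      · rw [if_pos hT, mul_one, Real.norm_eq_abs, abs_of_nonneg (by positivity)]
        have hJle : J.card ≤ k + 4 := by
          by_contra hcon
          push Not at hcon
          obtain ⟨J', hJ'J, hJ'c⟩ := Finset.exists_subset_card_eq hcon.le
          have hTne : T.Nonempty := by
            rw [← Finset.card_pos, hTc]; norm_num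
          obtain ⟨ξ, hξ⟩ := hTne
          have hξS := hTS hξ
          have hJ'r : J' ⊆ Finset.range (2 * k + 8) := fun i hi =>
            (Finset.mem_filter.1 (hJ'J hi)).1
          have hq : J'.biUnion (F k) ∈ Pf ξ := by
            refine ⟨?_, ?_, (k, J'), ?_⟩
            · rw [hcard k J' hact hJ'r hJ'c]; omega
            · rw [hξS.1]; exact hsum
            · rw [hξS.1]
              exact if_pos ⟨hact, hJ'r, hJ'c⟩
          obtain ⟨η, hη, hηf⟩ := a.2 ξ (hT ξ hξ) _ hq
          obtain ⟨i, hi, hηi⟩ := Finset.mem_biUnion.1 hη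
          have := (Finset.mem_filter.1 (hJ'J hi)).2 η hηi
          rw [hηf] at this
          exact absurd this (by simp)
        have h3 : (J.card : ℝ) ≤ k + 4 := by exact_mod_cast hJle
        have h4 : (M:ℝ) = 2 * k + 8 := by rw [hM]; push_cast; ring
        linarith
      · rw [if_neg hT, mul_zero, zero_add, Real.norm_eq_abs, abs_of_nonneg hJ0]
        linarith
    have h1 : l k g ≤ ‖g‖ := by
      have h2 := (l k).le_opNorm g
      have h3 := mul_le_mul_of_nonneg_right (hl k) (norm_nonneg g)
      rw [Real.norm_eq_abs] at h2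
      have h4 := le_abs_self (l k g)
      linarith
    linarith
  · apply hZ k hact T hTI
    rw [Finset.disjoint_left]
    intro ξ hξ hξZ
    exact (hTS hξ).2 k hξZ

end Pool.Agent.Lib.P2cbf68
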