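import Mathlib

/-!
# The compact space

`Gam = (ℕ → Bool)` is an index set of size continuum. Each index `ξ` carries a countable family
`Pf ξ` of forbidden finite sets `q` (each with at least four elements, and with summable
weights `2^{-|q|}`). The compact space `Kc` consists of the sets `A ⊆ Gam` such that for each
`ξ ∈ A` no `q ∈ Pf ξ` is contained in `A`. The assignment of families to indices is onto, with
uncountable fibres.
-/

set_option autoImplicit false
open Filter Topology Set

namespace Pool.Agent.Lib.P2cbf68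

/-- The index set. -/
abbrev Gam : Type := ℕ → Bool

/-- Index set of codes. -/
abbrev Idx : Type := ℕ × Finset ℕ

/-- Codes for countable families of finite sets. -/
abbrev Code : Type := Idx → Finset Gam

lemma mk_gam : Cardinal.mk Gam = Cardinal.continuum := by simp

lemma mk_code : Cardinal.mk Code = Cardinal.continuum := by
  have h1 : Cardinal.mk (Finset Gam) = Cardinal.continuum := by
    rw [Cardinal.mk_finset_of_infinite, mk_gam]
  have h2 : Cardinal.mk Idx = Cardinal.aleph0 := by simp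
  have h3 : Cardinal.mk Code = Cardinal.mk (Finset Gam) ^ Cardinal.mk Idx := by
    simp [Code]
  rw [h3, h1, h2, Cardinal.continuum_power_aleph0]

lemma nonempty_equiv : Nonempty (Gam ≃ Code × Gam) := by
  rw [← Cardinal.eq]
  rw [Cardinal.mk_prod, Cardinal.lift_id, Cardinal.lift_id, mk_code, mk_gam,
    Cardinal.continuum_mul_self]

/-- A fixed bijection. -/
noncomputable def eqv : Gam ≃ Code × Gam := nonempty_equiv.some

/-- The code of an index. -/
noncomputable def cod (ξ : Gam) : Code := (eqv ξ).1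

/-- Weight of a finite set. -/
noncomputable def wt (q : Finset Gam) : ℝ := if 4 ≤ q.card then (1 / 2 : ℝ) ^ q.card else 0

lemma wt_nonneg (q : Finset Gam) : 0 ≤ wt q := by
  unfold wt; split_ifs <;> positivity

/-- The family of forbidden sets at `ξ`. -/
def Pf (ξ : Gam) : Set (Finset Gam) :=
  {q | 4 ≤ q.card ∧ Summable (fun i => wt (cod ξ i)) ∧ ∃ i, cod ξ i = q}

/-- Tail estimate for the forbidden families. -/
lemma Pf_tail (ξ : Gam) (δ : ℝ) (hδ : 0 < δ) : ∃ Q : Finset (Finset Gam), ∀ B : Finset (Finset Gam),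
    (∀ q ∈ B, q ∈ Pf ξ ∧ q ∉ Q) → ∑ q ∈ B, (1 / 2 : ℝ) ^ q.card ≤ δ := by
  classical
  by_cases hs : Summable (fun i => wt (cod ξ i))
  · obtain ⟨s, hs'⟩ := summable_iff_vanishing_norm.1 hs δ hδ
    refine ⟨s.image (cod ξ), fun B hB => ?_⟩
    have hex : ∀ q : {q // q ∈ B}, ∃ i, cod ξ i = q.1 := fun q => (hB q.1 q.2).1.2.2
    choose idx hidx using hex
    let t : Finset Idx := Finset.univ.image idx
    have hinj : Function.Injective idx := by
      intro q q' h
      apply Subtype.ext
      rw [← hidx q, ← hidx q', h]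
    have hdisj : Disjoint t s := by
      rw [Finset.disjoint_left]
      intro i hi his
      rw [Finset.mem_image] at hi
      obtain ⟨q, -, rfl⟩ := hi
      apply (hB q.1 q.2).2
      rw [← hidx q]
      exact Finset.mem_image_of_mem _ his
    have h1 := hs' t hdisj
    have h2 : ∑ i ∈ t, wt (cod ξ i) = ∑ q ∈ B, (1 / 2 : ℝ) ^ q.card := by
      rw [Finset.sum_image (fun a _ b _ h => hinj h), ← Finset.sum_coe_sort B]
      apply Finset.sum_congr rfl
      intro q _
      rw [hidx]
      unfold wt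
      rw [if_pos (hB q.1 q.2).1.1]
    rw [h2, Real.norm_eq_abs] at h1
    exact (le_abs_self _).trans h1.le
  · refine ⟨∅, fun B hB => ?_⟩
    have : B = ∅ := by
      rw [Finset.eq_empty_iff_forall_notMem]
      intro q hq
      exact hs (hB q hq).1.2.1
    rw [this]
    simp [hδ.le]

/-- The compact space, as a closed subset of the cube. -/
def Kset : Set (Gam → Bool) := {a | ∀ ξ, a ξ = true → ∀ q ∈ Pf ξ, ∃ η ∈ q, a η = false}

lemma isClosed_Kset : IsClosed Kset := by
  have : Kset = ⋂ ξ : Gam, ⋂ q ∈ Pf ξ, ({a : Gam → Bool | a ξ = false} ∪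
      ⋃ η ∈ q, {a : Gam → Bool | a η = false}) := by
    ext a
    simp only [Kset, Set.mem_ofPred_eq, Set.mem_iInter, Set.mem_union, Set.mem_iUnion]
    constructor
    · intro h ξ q hq
      cases ha : a ξ
      · exact Or.inl rfl
      · obtain ⟨η, hη, h2⟩ := h ξ ha q hq
        exact Or.inr ⟨η, hη, h2⟩
    · intro h ξ ha q hq
      rcases h ξ q hq with h1 | ⟨η, hη, h2⟩
      · rw [ha] at h1; exact absurd h1 (by simp)
      · exact ⟨η, hη, h2⟩
  rw [this]
  have hc : ∀ ξ : Gam, IsClosed {a : Gam → Bool | a ξ = false} := fun ξ =>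
    isClosed_eq (continuous_apply ξ) continuous_const
  refine isClosed_iInter fun ξ => isClosed_iInter fun q => isClosed_iInter fun _ => ?_
  refine (hc ξ).union ?_
  exact Set.Finite.isClosed_biUnion q.finite_toSet (fun η _ => hc η)

/-- The compact space. -/
abbrev Kc : Type := {a : Gam → Bool // a ∈ Kset}

instance : CompactSpace Kc := isCompact_iff_compactSpace.1 isClosed_Kset.isCompact

/-- The trimming map on finite sets. -/
noncomputable def trimFun (F : Finset Gam) : Gam → Bool := by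
  classical
  exact fun ξ => decide (ξ ∈ F ∧ ∀ q ∈ Pf ξ, ¬ q ⊆ F)

lemma trimFun_eq_true {F : Finset Gam} {ξ : Gam} :
    trimFun F ξ = true ↔ ξ ∈ F ∧ ∀ q ∈ Pf ξ, ¬ q ⊆ F := by
  unfold trimFun; simp

/-- The trimming map. -/
noncomputable def trim (F : Finset Gam) : Kc := ⟨trimFun F, by
  intro ξ hξ q hq
  by_contra hcon
  push Not at hcon
  have h1 := trimFun_eq_true.1 hξ
  apply h1.2 q hq
  intro η hη
  have h2 : trimFun F η = true := by
    cases h : trimFun F η
    · exact absurd h (hcon η hη)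
    · rfl
  exact (trimFun_eq_true.1 h2).1⟩

lemma trim_apply {F : Finset Gam} {ξ : Gam} :
    (trim F).1 ξ = true ↔ ξ ∈ F ∧ ∀ q ∈ Pf ξ, ¬ q ⊆ F := trimFun_eq_true

/-- Trimming does nothing to finite subsets of members of the space. -/
lemma trim_of_subset {a : Kc} {F : Finset Gam} (hF : ∀ ξ ∈ F, a.1 ξ = true) {ξ : Gam} :
    (trim F).1 ξ = true ↔ ξ ∈ F := by
  rw [trim_apply]
  constructor
  · exact fun h => h.1
  · intro h
    refine ⟨h, fun q hq hqF => ?_⟩
    obtain ⟨η, hη, h2⟩ := a.2 ξ (hF ξ h) q hq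
    rw [hF η (hqF hη)] at h2
    exact absurd h2 (by simp)

/-- Small sets are not trimmed. -/
lemma trim_of_card {F : Finset Gam} (hF : F.card < 4) {ξ : Gam} :
    (trim F).1 ξ = true ↔ ξ ∈ F := by
  rw [trim_apply]
  constructor
  · exact fun h => h.1
  · intro h
    refine ⟨h, fun q hq hqF => ?_⟩
    have := Finset.card_le_card hqF
    have := hq.1
    omega

/-- Continuous functions on `Kc` depend on finitely many coordinates up to `ε`. -/
lemma exists_finite_dep (f : C(Kc, ℝ)) (ε : ℝ) (hε : 0 < ε) :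
    ∃ G : Finset Gam, ∀ a b : Kc, (∀ ξ ∈ G, a.1 ξ = b.1 ξ) → |f a - f b| < ε := by
  classical
  have hloc : ∀ a : Kc, ∃ G : Finset Gam, ∀ b : Kc, (∀ ξ ∈ G, a.1 ξ = b.1 ξ) →
      |f a - f b| < ε / 2 := by
    intro a
    have h1 : f ⁻¹' (Metric.ball (f a) (ε / 2)) ∈ 𝓝 a :=
      f.continuous.continuousAt (Metric.ball_mem_nhds _ (by linarith))
    rw [nhds_subtype_eq_comap, Filter.mem_comap] at h1
    obtain ⟨U, hU, hUs⟩ := h1
    rw [nhds_pi, Filter.mem_pi] at hU
    obtain ⟨I, hI, t, ht, hsub⟩ := hU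
    refine ⟨hI.toFinset, fun b hb => ?_⟩
    have h2 : b.1 ∈ U := by
      apply hsub
      intro i hi
      rw [← hb i (hI.mem_toFinset.2 hi)]
      exact mem_of_mem_nhds (ht i)
    have h3 : b ∈ f ⁻¹' (Metric.ball (f a) (ε / 2)) := hUs h2
    rw [Set.mem_preimage, Metric.mem_ball, dist_comm, Real.dist_eq] at h3
    exact h3
  choose G hG using hloc
  have hopen : ∀ a : Kc, IsOpen {b : Kc | ∀ ξ ∈ G a, a.1 ξ = b.1 ξ} := by
    intro a
    have : {b : Kc | ∀ ξ ∈ G a, a.1 ξ = b.1 ξ} = ⋂ ξ ∈ G a, {b : Kc | a.1 ξ = b.1 ξ} := by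
      ext b; simp
    rw [this]
    apply isOpen_biInter_finset
    intro ξ _
    have hcont : Continuous (fun b : Kc => b.1 ξ) :=
      (continuous_apply ξ).comp continuous_subtype_val
    exact (isOpen_discrete {x : Bool | a.1 ξ = x}).preimage hcont
  obtain ⟨t, ht⟩ := isCompact_univ.elim_finite_subcover
    (fun a : Kc => {b : Kc | ∀ ξ ∈ G a, a.1 ξ = b.1 ξ}) hopen
    (fun a _ => Set.mem_iUnion.2 ⟨a, fun _ _ => rfl⟩)
  refine ⟨t.biUnion G, fun a b hab => ?_⟩
  obtain ⟨c, hc⟩ := Set.mem_iUnion.1 (ht (Set.mem_univ a))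
  obtain ⟨hct, hca⟩ := Set.mem_iUnion.1 hc
  have hcb : ∀ ξ ∈ G c, c.1 ξ = b.1 ξ := by
    intro ξ hξ
    rw [← hab ξ (Finset.mem_biUnion.2 ⟨c, hct, hξ⟩)]
    exact hca ξ hξ
  have h1 := hG c a hca
  have h2 := hG c b hcb
  have h3 : |f a - f b| ≤ |f c - f a| + |f c - f b| := by
    have : f a - f b = (f c - f b) - (f c - f a) := by ring
    rw [this, add_comm]
    exact abs_sub _ _
  linarith

end Pool.Agent.Lib.P2cbf68
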